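import Pool.Agent.W623.SecC.Defs

/-!
# Part A8 of the project SC: the abstract theorem on elliptic curves
(helper349)
-/

open Polynomial Pool.Agent.W623.SecC

namespace W349.SecC

universe u v

open WeierstrassCurve.Affine (CoordinateRing)
open WeierstrassCurve.Affine.CoordinateRing

/-! ### Counting -/

theorem count {A : Type*} [AddCommGroup A] [Finite A] (N : ℕ) [NeZero N] (v : A →+ ZMod N)
    (hv : Function.Surjective v) (g : A →+ A) (h : ∀ a, v (g a) = v a) :
    N ≤ Nat.card {a // g a = a} := by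
  classical
  set d : A →+ A := g - AddMonoidHom.id A with hd
  have h1 : Nat.card d.ker * Nat.card d.range = Nat.card A := by
    have := AddSubgroup.card_mul_index d.ker
    rw [AddSubgroup.index_ker] at this
    exact this
  have h2 : Nat.card v.ker * N = Nat.card A := by
    have := AddSubgroup.card_mul_index v.ker
    rw [AddSubgroup.index_ker, AddMonoidHom.range_eq_top.2 hv] at this
    rw [← this]
    congr 1
    rw [AddSubgroup.card_top, Nat.card_zmod]
  have h3 : Nat.card d.range ≤ Nat.card v.ker := by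
    apply AddSubgroup.card_le_of_le
    rintro _ ⟨a, rfl⟩
    rw [AddMonoidHom.mem_ker, hd]
    simp [h a]
  have h4 : 0 < Nat.card v.ker := Nat.card_pos
  have h5 : N ≤ Nat.card d.ker := by
    by_contra hlt
    push Not at hlt
    have : Nat.card d.ker * Nat.card d.range < Nat.card v.ker * N := by
      calc Nat.card d.ker * Nat.card d.range ≤ Nat.card d.ker * Nat.card v.ker :=
            Nat.mul_le_mul_left _ h3
        _ < N * Nat.card v.ker := Nat.mul_lt_mul_of_pos_right hlt h4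
        _ = _ := mul_comm _ _
    omega
  refine h5.trans (le_of_eq ?_)
  refine Nat.card_congr (Equiv.subtypeEquivRight fun a => ?_)
  rw [AddMonoidHom.mem_ker, hd]
  simp [sub_eq_zero]

/-! ### Units -/

theorem isU_iff {K : Type*} [Field K] (V : ValuationSubring K) (x : K) :
    IsU V x ↔ V.valuation x = 1 := by
  constructor
  · rintro ⟨h0, h1, h2⟩
    have h1' := (V.valuation_le_one_iff x).2 h1
    have h2' := (V.valuation_le_one_iff _).2 h2
    rw [map_inv₀] at h2'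
    refine le_antisymm h1' ?_
    have h3 : V.valuation x ≠ 0 := by simpa using h0
    exact (inv_le_one₀ (zero_lt_iff.2 h3)).1 h2'
  · intro h
    have h0 : x ≠ 0 := by
      rintro rfl
      simp at h
    refine ⟨h0, (V.valuation_le_one_iff x).1 h.le, (V.valuation_le_one_iff _).1 ?_⟩
    rw [map_inv₀, h, inv_one]

theorem unit_pow {K : Type*} [Field K] (V : ValuationSubring K)
    (hs : ∀ η, IsU V η → ∃ ρ, ρ ^ 2 = η) (n : ℕ) (η : K) (h : IsU V η) :
    ∃ ρ, ρ ^ (2 ^ n) = η := by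
  induction n generalizing η with
  | zero => exact ⟨η, by simp⟩
  | succ n ih =>
    obtain ⟨ρ, rfl⟩ := hs η h
    have hρ : IsU V ρ := by
      rw [isU_iff] at h ⊢
      rw [map_pow] at h
      exact (pow_eq_one_iff_of_nonneg zero_le' two_ne_zero).1 h
    obtain ⟨σ, rfl⟩ := ih ρ hρ
    exact ⟨σ, by rw [← pow_mul, pow_succ]⟩

/-! ### Norms and leading coefficients -/

section norms

variable {K : Type u} [Field K] {W : WeierstrassCurve.Affine K}

/-- the leading coefficient of the norm -/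
noncomputable def Lc (f : W.CoordinateRing) : K := (Algebra.norm K[X] f).leadingCoeff

theorem Lc_mul (f g : W.CoordinateRing) : Lc (f * g) = Lc f * Lc g := by
  rw [Lc, map_mul, leadingCoeff_mul]; rfl

theorem Lc_pow (f : W.CoordinateRing) (n : ℕ) : Lc (f ^ n) = Lc f ^ n := by
  rw [Lc, map_pow, leadingCoeff_pow]; rfl

theorem norm_poly (p : K[X]) : Algebra.norm K[X] (mk W (C p) : W.CoordinateRing) = p ^ 2 := by
  have := norm_smul_basis (W' := W) p 0
  rw [zero_smul, add_zero, smul, mul_one] at this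
  rw [this]
  ring

theorem Lc_poly (p : K[X]) : Lc (mk W (C p) : W.CoordinateRing) = p.leadingCoeff ^ 2 := by
  rw [Lc, norm_poly, leadingCoeff_pow]

theorem algebraMap_eq (c : K) : algebraMap K W.CoordinateRing c = mk W (C (C c)) := rfl

theorem Lc_const (c : K) : Lc (algebraMap K W.CoordinateRing c) = c ^ 2 := by
  rw [algebraMap_eq, Lc_poly, leadingCoeff_C]

theorem Lc_one : Lc (1 : W.CoordinateRing) = 1 := by
  rw [Lc, map_one, leadingCoeff_one]

theorem Lc_XClass (x : K) : Lc (XClass W x) = 1 := by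
  rw [XClass, Lc_poly, leadingCoeff_X_sub_C, one_pow]

theorem Lc_pm (h1 : W.a₁ = 0) (h3 : W.a₃ = 0) (f : W.CoordinateRing) (hf : f ≠ 0) :
    ∃ u : K, u ≠ 0 ∧ (Lc f = u ^ 2 ∨ Lc f = - u ^ 2) := by
  obtain ⟨p, q, rfl⟩ := exists_smul_basis_eq f
  have hN := norm_smul_basis (W' := W) p q
  rw [h1, h3] at hN
  simp only [C_0, zero_mul, add_zero, mul_zero, sub_zero] at hN
  set c : K[X] := X ^ 3 + C W.a₂ * X ^ 2 + C W.a₄ * X + C W.a₆ with hc
  have hc' : c = C 1 * X ^ 3 + C W.a₂ * X ^ 2 + C W.a₄ * X + C W.a₆ := by rw [hc, C_1, one_mul]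
  have hcl : c.leadingCoeff = 1 := by
    rw [hc', leadingCoeff_cubic one_ne_zero]
  have hcd : c.natDegree = 3 := by
    rw [hc', natDegree_cubic one_ne_zero]
  have hc0 : c ≠ 0 := by
    intro h
    rw [h] at hcl
    simp at hcl
  unfold Lc
  rw [hN]
  by_cases hq : q = 0
  · subst hq
    have hp : p ≠ 0 := by
      rintro rfl
      simp at hf
    refine ⟨p.leadingCoeff, by simpa using hp, Or.inl ?_⟩
    simp
  by_cases hp : p = 0
  · subst hp
    refine ⟨q.leadingCoeff, by simpa using hq, Or.inr ?_⟩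
    simp [hcl]
  have hd1 : (p ^ 2).natDegree = 2 * p.natDegree := natDegree_pow _ _
  have hd2 : (q ^ 2 * c).natDegree = 2 * q.natDegree + 3 := by
    rw [natDegree_mul (pow_ne_zero _ hq) hc0, natDegree_pow, hcd]
  rcases lt_or_ge (p ^ 2).natDegree (q ^ 2 * c).natDegree with hlt | hge
  · refine ⟨q.leadingCoeff, by simpa using hq, Or.inr ?_⟩
    rw [leadingCoeff_sub_of_degree_lt' (degree_lt_degree hlt)]
    simp [hcl]
  · have hlt : (q ^ 2 * c).natDegree < (p ^ 2).natDegree := by omega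
    refine ⟨p.leadingCoeff, by simpa using hp, Or.inl ?_⟩
    rw [leadingCoeff_sub_of_degree_lt (degree_lt_degree hlt)]
    simp

end norms

/-! ### The automorphism of the coordinate ring -/

section frob

variable {K : Type u} [Field K] {W : WeierstrassCurve.Affine K}

theorem poly_map (φ : K →+* K) (h1 : W.a₁ = 0) (h3 : W.a₃ = 0) (h2 : φ W.a₂ = W.a₂)
    (h4 : φ W.a₄ = W.a₄) (h6 : φ W.a₆ = W.a₆) :
    W.polynomial.map (mapRingHom φ) = W.polynomial := by
  rw [WeierstrassCurve.Affine.polynomial]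
  simp [h1, h3, h2, h4, h6]

/-- the ring endomorphism of the coordinate ring -/
noncomputable def Fr (φ : K →+* K) (hφ : W.polynomial.map (mapRingHom φ) = W.polynomial) :
    W.CoordinateRing →+* W.CoordinateRing :=
  AdjoinRoot.lift ((AdjoinRoot.of W.polynomial).comp (mapRingHom φ)) (AdjoinRoot.root W.polynomial)
    (by rw [← eval₂_map, hφ, AdjoinRoot.eval₂_root])

variable {φ : K →+* K} (hφ : W.polynomial.map (mapRingHom φ) = W.polynomial)

theorem Fr_mk (p : K[X][X]) : Fr φ hφ (mk W p) = mk W (p.map (mapRingHom φ)) := by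
  rw [Fr, mk, AdjoinRoot.lift_mk, ← eval₂_map]
  exact AdjoinRoot.aeval_eq _

theorem Fr_XYIdeal (x y : K) :
    (XYIdeal W x (C y)).map (Fr φ hφ) = XYIdeal W (φ x) (C (φ y)) := by
  rw [XYIdeal, Ideal.map_span, Set.image_pair, XClass, YClass, Fr_mk, Fr_mk, XYIdeal, XClass, YClass]
  simp

theorem Lc_Fr (h1 : W.a₁ = 0) (h3 : W.a₃ = 0) (h2 : φ W.a₂ = W.a₂)
    (h4 : φ W.a₄ = W.a₄) (h6 : φ W.a₆ = W.a₆) (f : W.CoordinateRing) :
    Lc (Fr φ hφ f) = φ (Lc f) := by
  have key : Algebra.norm K[X] (Fr φ hφ f) = (Algebra.norm K[X] f).map φ := by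
    obtain ⟨p, q, rfl⟩ := exists_smul_basis_eq f
    have e1 : Fr φ hφ (p • (1 : W.CoordinateRing) + q • mk W X) =
        (p.map φ) • (1 : W.CoordinateRing) + (q.map φ) • mk W X := by
      rw [smul, smul, smul, smul, map_add, map_mul, map_mul, Fr_mk, Fr_mk, Fr_mk, map_one]
      simp
    rw [e1, norm_smul_basis, norm_smul_basis]
    simp [h1, h3, h2, h4, h6]
  rw [Lc, key, leadingCoeff_map]; rfl

theorem ev_mk {R : Type v} [Field R] (ι : K →+* R) (z w : R)
    (hzw : W.polynomial.eval₂ (eval₂RingHom ι z) w = 0) (p : K[X][X]) :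
    ev W ι z w hzw (mk W p) = p.eval₂ (eval₂RingHom ι z) w := by
  rw [ev, mk, AdjoinRoot.lift_mk]

theorem ev_Fr {R : Type v} [Field R] (ι : K →+* R) (z w : R)
    (hzw : W.polynomial.eval₂ (eval₂RingHom ι z) w = 0) (Φ : R ≃+* R)
    (hΦ : ∀ c, Φ (ι c) = ι (φ c)) (hz : Φ z = z) (hw : Φ w = w) (f : W.CoordinateRing) :
    ev W ι z w hzw (Fr φ hφ f) = Φ (ev W ι z w hzw f) := by
  obtain ⟨p, rfl⟩ := AdjoinRoot.mk_surjective f
  change ev W ι z w hzw (Fr φ hφ (mk W p)) = Φ (ev W ι z w hzw (mk W p))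
  rw [Fr_mk, ev_mk, ev_mk, eval₂_map]
  have e1 : (eval₂RingHom ι z).comp (mapRingHom φ) = (Φ : R →+* R).comp (eval₂RingHom ι z) := by
    apply Polynomial.ringHom_ext
    · intro a
      simp [hΦ]
    · simp [hz]
  rw [e1]
  have e2 := hom_eval₂ p (eval₂RingHom ι z) (Φ : R →+* R) w
  rw [RingEquiv.coe_toRingHom, hw] at e2
  exact e2.symm

theorem ev_const {R : Type v} [Field R] (ι : K →+* R) (z w : R)
    (hzw : W.polynomial.eval₂ (eval₂RingHom ι z) w = 0) (c : K) :
    ev W ι z w hzw (algebraMap K W.CoordinateRing c) = ι c := by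
  rw [algebraMap_eq, ev_mk]
  simp

theorem ev_XClass {R : Type v} [Field R] (ι : K →+* R) (z w : R)
    (hzw : W.polynomial.eval₂ (eval₂RingHom ι z) w = 0) (x : K) :
    ev W ι z w hzw (XClass W x) = z - ι x := by
  rw [XClass, ev_mk]
  simp

/-- conjugate element: the norm is a multiple -/
theorem norm_dvd (f : W.CoordinateRing) :
    ∃ f' : W.CoordinateRing, f * f' = mk W (C (Algebra.norm K[X] f)) := by
  obtain ⟨p, q, rfl⟩ := exists_smul_basis_eq f
  have := coe_norm_smul_basis (W' := W) p q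
  refine ⟨mk W (C p + C q * (-(X : K[X][X]) - C (C W.a₁ * X + C W.a₃))), ?_⟩
  have e1 : p • (1 : W.CoordinateRing) + q • mk W X = mk W (C p + C q * X) := by
    rw [smul, smul, mul_one, ← map_mul, ← map_add]
  rw [e1] at this ⊢
  rw [← map_mul]
  exact this.symm

theorem ev_ne_zero {R : Type v} [Field R] (ι : K →+* R) (z w : R)
    (hzw : W.polynomial.eval₂ (eval₂RingHom ι z) w = 0)
    (ht : ∀ P : K[X], P ≠ 0 → P.eval₂ ι z ≠ 0) (f : W.CoordinateRing)
    (hf : Lc f ≠ 0) : ev W ι z w hzw f ≠ 0 := by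
  intro h0
  obtain ⟨f', hf'⟩ := norm_dvd f
  have h1 : ev W ι z w hzw (mk W (C (Algebra.norm K[X] f))) = 0 := by
    rw [← hf', map_mul, h0, zero_mul]
  rw [ev_mk, eval₂_C] at h1
  exact ht _ (fun h => hf (by rw [Lc, h, leadingCoeff_zero])) h1

end frob

/-! ### The relation between points and exponents -/

section rel

variable {K : Type u} [Field K] {W : WeierstrassCurve.Affine K} {R : Type v} [Field R]

/-- the exponent `j` belongs to the point `P` -/
def Rel (E : W.CoordinateRing →+* R) (q : R) (n : ℕ) (P : W.Point) (j : ℤ) : Prop :=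
  ∃ f : W.CoordinateRing, idl P ^ (2 ^ n) = Ideal.span {f} ∧ Lc f ^ 2 = 1 ∧
    ∃ β : R, E f = q ^ j * β ^ (2 ^ n)

theorem Lc_zero : Lc (0 : W.CoordinateRing) = 0 := by
  have := Lc_const (W := W) 0
  rw [map_zero] at this
  rw [this]
  ring

theorem ne_zero_of_Lc {f : W.CoordinateRing} (h : Lc f ^ 2 = 1) : f ≠ 0 := by
  rintro rfl
  rw [Lc_zero] at h
  simp at h

theorem Lc_ne_zero {f : W.CoordinateRing} (h : Lc f ^ 2 = 1) : Lc f ≠ 0 := by
  intro h0
  rw [h0] at h
  simp at h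

variable (h5 : PartA5.{u}) {E : W.CoordinateRing →+* R} {ι : K →+* R} {q : R}
  (hEc : ∀ c, E (algebraMap K W.CoordinateRing c) = ι c) (hE0 : ∀ f, Lc f ≠ 0 → E f ≠ 0)
  (hq : q ≠ 0)

include h5 hEc hE0 hq in
theorem rel_unique (V : ValuationSubring K) (hs : ∀ η, IsU V η → ∃ ρ, ρ ^ 2 = η)
    (hu : ∀ (n : ℕ) (j : ℤ) (β : R), q ^ j = β ^ (2 ^ n) → (2 ^ n : ℤ) ∣ j)
    {n : ℕ} {P : W.Point} {j j' : ℤ} (h : Rel E q n P j) (h' : Rel E q n P j') :
    (2 ^ n : ℤ) ∣ j - j' := by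
  obtain ⟨f, hf, hLf, β, hβ⟩ := h
  obtain ⟨f', hf', hLf', β', hβ'⟩ := h'
  obtain ⟨c, hc0, hc⟩ := (h5 K W).2.2.2 f f' (ne_zero_of_Lc hLf') (by rw [← hf, ← hf'])
  have hLc : Lc f = c ^ 2 * Lc f' := by rw [hc, Lc_mul, Lc_const]
  have hcu : IsU V c := by
    rw [isU_iff]
    have h4 : c ^ 4 = 1 := by
      have := congrArg (fun t => t ^ 2) hLc
      simp only [mul_pow] at this
      rw [hLf, hLf', mul_one] at this
      rw [this]
      ring
    have := congrArg V.valuation h4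
    rw [map_pow, map_one] at this
    exact (pow_eq_one_iff_of_nonneg zero_le' (by norm_num)).1 this
  obtain ⟨ρ, hρ⟩ := unit_pow V hs n c hcu
  have h1 : E f ≠ 0 := hE0 f (Lc_ne_zero hLf)
  have hβ0 : β ≠ 0 := by
    rintro rfl
    rw [zero_pow (by positivity), mul_zero] at hβ
    exact h1 hβ
  apply hu n (j - j') (ι ρ * β' / β)
  have h2 : E f = ι ρ ^ 2 ^ n * E f' := by
    rw [hc, map_mul, hEc, ← hρ, map_pow]
  rw [hβ, hβ'] at h2
  have h3 : q ^ j' ≠ 0 := zpow_ne_zero _ hq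
  rw [zpow_sub₀ hq, div_pow, mul_pow, div_eq_div_iff h3 (pow_ne_zero _ hβ0), h2]
  ring

open Classical in
include h5 hEc hE0 hq in
theorem rel_add (h1 : W.a₁ = 0) (h3 : W.a₃ = 0) {n : ℕ} {P P' : W.Point} {j j' : ℤ}
    (hP : 2 ^ n • (P + P') = 0) (h : Rel E q n P j) (h' : Rel E q n P' j') :
    Rel E q n (P + P') (j + j') := by
  obtain ⟨f, hf, hLf, β, hβ⟩ := h
  obtain ⟨f', hf', hLf', β', hβ'⟩ := h'
  obtain ⟨a, b, ha, hb, hab⟩ := (h5 K W).2.1 P P'
  obtain ⟨g, hg0, hg⟩ := (h5 K W).1 (2 ^ n) (P + P') hP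
  have hsp : Ideal.span {a ^ 2 ^ n * (f * f')} = Ideal.span {b ^ 2 ^ n * g} := by
    have := congrArg (fun I => I ^ (2 ^ n)) hab
    simp only [mul_pow, Ideal.span_singleton_pow] at this
    rw [hf, hf', hg, Ideal.span_singleton_mul_span_singleton,
      Ideal.span_singleton_mul_span_singleton, Ideal.span_singleton_mul_span_singleton] at this
    exact this
  obtain ⟨c, hc0, hc⟩ := (h5 K W).2.2.2 _ _ (mul_ne_zero (pow_ne_zero _ hb) hg0) hsp
  obtain ⟨s, hs0, hs⟩ := Lc_pm h1 h3 a ha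
  obtain ⟨t, ht0, ht⟩ := Lc_pm h1 h3 b hb
  have hs' : Lc a ^ 2 = s ^ 4 := by rcases hs with h | h <;> rw [h] <;> ring
  have ht' : Lc b ^ 2 = t ^ 4 := by rcases ht with h | h <;> rw [h] <;> ring
  have hLa : Lc a ≠ 0 := by
    intro h
    rw [h] at hs'
    exact pow_ne_zero 4 hs0 (by rw [← hs']; ring)
  have hLb : Lc b ≠ 0 := by
    intro h
    rw [h] at ht'
    exact pow_ne_zero 4 ht0 (by rw [← ht']; ring)
  have hEa : E a ≠ 0 := hE0 a hLa
  have hEb : E b ≠ 0 := hE0 b hLb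
  have hLc : (s ^ 4) ^ 2 ^ n = c ^ 4 * ((t ^ 4) ^ 2 ^ n * Lc g ^ 2) := by
    have := congrArg (fun x => Lc x ^ 2) hc
    simp only [Lc_mul, Lc_pow, Lc_const, mul_pow] at this
    rw [hLf, hLf', mul_one, mul_one, ← pow_mul, mul_comm (2 ^ n) 2, pow_mul, hs', ← pow_mul (Lc b),
      mul_comm (2 ^ n) 2, pow_mul (Lc b), ht'] at this
    rw [this]
    ring
  have hcc : algebraMap K W.CoordinateRing c ≠ 0 := by
    intro h
    have := Lc_const (W := W) c
    rw [h, Lc_zero] at this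
    exact pow_ne_zero 2 hc0 this.symm
  set d : K := (t / s) ^ 2 ^ n with hd
  have hd0 : d ≠ 0 := pow_ne_zero _ (div_ne_zero ht0 hs0)
  have hu : IsUnit (algebraMap K W.CoordinateRing (d * c)) :=
    (IsUnit.mk0 _ (mul_ne_zero hd0 hc0)).map _
  refine ⟨algebraMap K W.CoordinateRing (d * c) * g, ?_, ?_, ι (t / s) * (E a * β * β' / E b), ?_⟩
  · rw [hg]
    symm
    rw [mul_comm]
    exact Ideal.span_singleton_mul_right_unit hu g
  · rw [Lc_mul, Lc_const]
    have e1 : ((d * c) ^ 2 * Lc g) ^ 2 * (s ^ 4) ^ 2 ^ n = (s ^ 4) ^ 2 ^ n := by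
      have e2 : d ^ 4 * (s ^ 4) ^ 2 ^ n = (t ^ 4) ^ 2 ^ n := by
        rw [hd, ← pow_mul, mul_comm (2 ^ n) 4, pow_mul, ← mul_pow]
        congr 1
        field_simp
      calc ((d * c) ^ 2 * Lc g) ^ 2 * (s ^ 4) ^ 2 ^ n
          = (d ^ 4 * (s ^ 4) ^ 2 ^ n) * c ^ 4 * Lc g ^ 2 := by ring
        _ = c ^ 4 * ((t ^ 4) ^ 2 ^ n * Lc g ^ 2) := by rw [e2]; ring
        _ = _ := hLc.symm
    exact mul_right_cancel₀ (pow_ne_zero _ (pow_ne_zero _ hs0)) (by rw [e1, one_mul])
  · have e3 := congrArg E hc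
    simp only [map_mul, map_pow, hEc] at e3
    rw [hβ, hβ'] at e3
    rw [map_mul, hEc, map_mul, hd, map_pow, zpow_add₀ hq]
    have hEb' : E b ^ 2 ^ n ≠ 0 := pow_ne_zero _ hEb
    have e4 : ι c * E g = q ^ j * q ^ j' * (E a * β * β' / E b) ^ 2 ^ n := by
      rw [div_pow, mul_pow, mul_pow, ← mul_div_assoc, eq_div_iff hEb']
      linear_combination -e3
    rw [mul_assoc, e4]
    ring

theorem rel_zero (E : W.CoordinateRing →+* R) (q : R) (n : ℕ) : Rel E q n (0 : W.Point) 0 := by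
  refine ⟨1, ?_, ?_, 1, ?_⟩
  · change (⊤ : Ideal W.CoordinateRing) ^ (2 ^ n) = _
    rw [Ideal.span_singleton_one, ← Ideal.one_eq_top, one_pow]
  · rw [Lc_one, one_pow]
  · simp

open Classical in
include h5 in
theorem rel_exists (h6 : PartA6.{u}) (e : Fin 3 → K) (hW : W = crv e) (n : ℕ)
    (hK : ∀ x y : K, W.Nonsingular x y → ∀ f : W.CoordinateRing,
      XYIdeal W x (C y) ^ (2 ^ n) = Ideal.span {f} → ∃ (j : ℤ) (β : R), E f = q ^ j * β ^ (2 ^ n))
    (P : W.Point) (hP : 2 ^ n • P = 0) : ∃ j, Rel E q n P j := by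
  cases P with
  | zero => exact ⟨0, rel_zero E q n⟩
  | some x y hxy =>
    obtain ⟨f, hf0, hf⟩ := (h5 K W).1 (2 ^ n) _ hP
    change XYIdeal W x (C y) ^ (2 ^ n) = Ideal.span {f} at hf
    obtain ⟨c, u, hu0, hcu, hN⟩ := h6 K e W hW (2 ^ n) x y hxy f hf
    have hL : Lc f = c := by
      rw [Lc, hN, leadingCoeff_mul, leadingCoeff_C, leadingCoeff_pow, leadingCoeff_X_sub_C, one_pow,
        mul_one]
    have hu : IsUnit (algebraMap K W.CoordinateRing u⁻¹) :=
      (IsUnit.mk0 _ (inv_ne_zero hu0)).map _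
    have hf' : XYIdeal W x (C y) ^ (2 ^ n) =
        Ideal.span {algebraMap K W.CoordinateRing u⁻¹ * f} := by
      rw [hf, mul_comm]
      exact (Ideal.span_singleton_mul_right_unit hu f).symm
    obtain ⟨j, β, hβ⟩ := hK x y hxy _ hf'
    refine ⟨j, _, hf', ?_, β, hβ⟩
    rw [Lc_mul, Lc_const, hL]
    rcases hcu with h | h <;> rw [h] <;> field_simp

theorem rel_map {φ : K →+* K} (hφ : W.polynomial.map (mapRingHom φ) = W.polynomial)
    (h1 : W.a₁ = 0) (h3 : W.a₃ = 0) (h2 : φ W.a₂ = W.a₂)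
    (h4 : φ W.a₄ = W.a₄) (h6 : φ W.a₆ = W.a₆) (Φ : R ≃+* R)
    (hE : ∀ f, E (Fr φ hφ f) = Φ (E f)) (hΦq : Φ q = q) {n : ℕ} {P P' : W.Point}
    (hPP : idl P' = (idl P).map (Fr φ hφ)) {j : ℤ} (h : Rel E q n P j) : Rel E q n P' j := by
  obtain ⟨f, hf, hLf, β, hβ⟩ := h
  refine ⟨Fr φ hφ f, ?_, ?_, Φ β, ?_⟩
  · rw [hPP, ← Ideal.map_pow, hf, Ideal.map_span, Set.image_singleton]
  · rw [Lc_Fr hφ h1 h3 h2 h4 h6, ← map_pow, hLf, map_one]
  · rw [hE, hβ, map_mul, map_pow, map_zpow₀, hΦq]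

open Classical in
include h5 hEc hE0 hq in
theorem rel_odd (h1 : W.a₁ = 0) (h3 : W.a₃ = 0)
    (V : ValuationSubring K) (hs : ∀ η, IsU V η → ∃ ρ, ρ ^ 2 = η)
    (hu : ∀ (n : ℕ) (j : ℤ) (β : R), q ^ j = β ^ (2 ^ n) → (2 ^ n : ℤ) ∣ j)
    (hEX : ∀ x, E (XClass W x) ≠ 0)
    {m : ℕ} {T : W.Point} {x : K} (hx : W.Nonsingular x 0)
    (hT : 2 ^ m • T = (WeierstrassCurve.Affine.Point.some x 0 hx : W.Point)) {i j : ℤ} {β : R}
    (hβ : E (XClass W x) = q ^ j * β ^ 2) (h : Rel E q (m + 1) T i) : (2 : ℤ) ∣ i - j := by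
  obtain ⟨f, hf, hLf, γ, hγ⟩ := h
  obtain ⟨a, b, ha, hb, hab⟩ := (h5 K W).2.2.1 (2 ^ m) T
  rw [hT] at hab
  change _ = Ideal.span {b} * XYIdeal W x (C 0) at hab
  have hXX : XYIdeal W x (C 0) * XYIdeal W x (C 0) = Ideal.span {XClass W x} := by
    have := XYIdeal_neg_mul hx
    rw [WeierstrassCurve.Affine.negY, h1, h3] at this
    simpa [XIdeal] using this
  have hsp : Ideal.span {a ^ 2 * f} = Ideal.span {b ^ 2 * XClass W x} := by
    have := congrArg (fun I => I * I) hab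
    have e1 : Ideal.span {a} * idl T ^ 2 ^ m * (Ideal.span {a} * idl T ^ 2 ^ m) =
        Ideal.span {a ^ 2 * f} := by
      have e2 : idl T ^ 2 ^ m * idl T ^ 2 ^ m = Ideal.span {f} := by
        rw [← hf, ← pow_add]
        congr 1
        ring
      rw [mul_mul_mul_comm, e2, Ideal.span_singleton_mul_span_singleton,
        Ideal.span_singleton_mul_span_singleton, sq]
    have e3 : Ideal.span {b} * XYIdeal W x (C 0) * (Ideal.span {b} * XYIdeal W x (C 0)) =
        Ideal.span {b ^ 2 * XClass W x} := by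
      rw [mul_mul_mul_comm, hXX, Ideal.span_singleton_mul_span_singleton,
        Ideal.span_singleton_mul_span_singleton, sq]
    rw [e1, e3] at this
    exact this
  obtain ⟨c, hc0, hc⟩ := (h5 K W).2.2.2 _ _ (mul_ne_zero (pow_ne_zero _ hb) (XClass_ne_zero x)) hsp
  obtain ⟨s, hs0, hs'⟩ := Lc_pm h1 h3 a ha
  obtain ⟨t, ht0, ht'⟩ := Lc_pm h1 h3 b hb
  have hsa : Lc a ^ 2 = s ^ 4 := by rcases hs' with h | h <;> rw [h] <;> ring
  have htb : Lc b ^ 2 = t ^ 4 := by rcases ht' with h | h <;> rw [h] <;> ring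
  have hLa : Lc a ≠ 0 := by
    intro h
    rw [h] at hsa
    exact pow_ne_zero 4 hs0 (by rw [← hsa]; ring)
  have hLb : Lc b ≠ 0 := by
    intro h
    rw [h] at htb
    exact pow_ne_zero 4 ht0 (by rw [← htb]; ring)
  have hEa : E a ≠ 0 := hE0 a hLa
  have hEb : E b ≠ 0 := hE0 b hLb
  have hLc : s ^ 8 = c ^ 4 * t ^ 8 := by
    have := congrArg (fun x => Lc x ^ 2) hc
    simp only [Lc_mul, Lc_pow, Lc_const, mul_pow, Lc_XClass] at this
    rw [hLf, hsa, htb] at this
    linear_combination this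
  have hcu : IsU V (c * t ^ 2 / s ^ 2) := by
    rw [isU_iff]
    have h4 : (c * t ^ 2 / s ^ 2) ^ 4 = 1 := by
      rw [div_pow, div_eq_one_iff_eq (pow_ne_zero _ (pow_ne_zero _ hs0))]
      linear_combination -hLc
    have := congrArg V.valuation h4
    rw [map_pow, map_one] at this
    exact (pow_eq_one_iff_of_nonneg zero_le' (by norm_num)).1 this
  obtain ⟨ρ, hρ⟩ := hs _ hcu
  have hc2 : c = (ρ * s / t) ^ 2 := by
    rw [div_pow, mul_pow, hρ]
    field_simp
  have hγ0 : γ ≠ 0 := by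
    rintro rfl
    rw [zero_pow (by positivity), mul_zero] at hγ
    exact hE0 f (Lc_ne_zero hLf) hγ
  have e5 := congrArg E hc
  simp only [map_mul, map_pow, hEc] at e5
  rw [hγ, hβ, hc2, map_pow] at e5
  have := hu 1 (i - j) (ι (ρ * s / t) * E b * β / (E a * γ ^ 2 ^ m)) (by
    have h3 : q ^ j ≠ 0 := zpow_ne_zero _ hq
    rw [zpow_sub₀ hq, div_pow, div_eq_div_iff h3 (pow_ne_zero _ (mul_ne_zero hEa
      (pow_ne_zero _ hγ0)))]
    rw [pow_succ 2 m, pow_mul γ] at e5
    rw [pow_one]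
    linear_combination e5)
  simpa using this

end rel

/-! ### The curve over the big field -/

section main

variable {K₀ K : Type u} [Field K₀] [Field K] [Algebra K₀ K]

variable (K) in
/-- the curve over `K` -/
noncomputable abbrev WW (e : Fin 3 → K₀) : WeierstrassCurve.Affine K :=
  ((crv e).baseChange K)

theorem hWW (e : Fin 3 → K₀) : WW K e = crv (fun i => algebraMap K₀ K (e i)) := by
  ext <;> simp [crv, WeierstrassCurve.baseChange]

theorem nonsing (e : Fin 3 → K) (he : ∀ i j, i ≠ j → e i - e j ≠ 0) {W : WeierstrassCurve.Affine K}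
    (hW : W = crv e) (i : Fin 3) : W.Nonsingular (e i) 0 := by
  rw [WeierstrassCurve.Affine.nonsingular_iff, WeierstrassCurve.Affine.equation_iff, hW]
  have h01 := he 0 1 (by decide)
  have h02 := he 0 2 (by decide)
  have h12 := he 1 2 (by decide)
  simp only [crv]
  refine ⟨?_, Or.inl ?_⟩
  · fin_cases i <;> simp <;> ring
  · intro h
    fin_cases i
    · apply mul_ne_zero h01 h02
      simp at h
      linear_combination -h
    · apply mul_ne_zero h01 h12
      simp at h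
      linear_combination h
    · apply mul_ne_zero h02 h12
      simp at h
      linear_combination -h

open Classical in
theorem partA8 (h2 : PartA2.{u}) (h3 : PartA3.{u}) (h4 : PartA4.{u}) (h5 : PartA5.{u})
    (h6 : PartA6.{u}) : PartA8.{u, v} := by
  intro K₀ K R _ _ _ _ _ V h2V hsq ϖ hϖ0 hϖn hord φ Q hQ hφV hφQ e hGood ι Φ hΦ z w hz hw hwz ht hK
    hU i₀ j₀ β₀ hβ₀
  by_contra hj
  rw [Int.not_even_iff_odd] at hj
  have hW := hWW (K := K) e
  set W : WeierstrassCurve.Affine K := WW K e with hWdef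
  have ha1 : W.a₁ = 0 := by rw [hW]; rfl
  have ha3 : W.a₃ = 0 := by rw [hW]; rfl
  have hφe : ∀ c : K₀, φ (algebraMap K₀ K c) = algebraMap K₀ K c := fun c => φ.commutes c
  let φ' : K →+* K := (φ : K →+* K)
  have hφe' : ∀ c : K₀, φ' (algebraMap K₀ K c) = algebraMap K₀ K c := hφe
  have hf2 : φ' W.a₂ = W.a₂ := by
    rw [hW]; simp only [crv, map_neg, map_add, hφe']
  have hf4 : φ' W.a₄ = W.a₄ := by
    rw [hW]; simp only [crv, map_mul, map_add, hφe']
  have hf6 : φ' W.a₆ = W.a₆ := by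
    rw [hW]; simp only [crv, map_neg, map_mul, hφe']
  have hφ := poly_map φ' ha1 ha3 hf2 hf4 hf6
  have hzw : W.polynomial.eval₂ (eval₂RingHom ι z) w = 0 := by
    rw [WeierstrassCurve.Affine.polynomial, ha1, ha3]
    rw [hW]
    simp only [crv]
    rw [Fin.prod_univ_three] at hwz
    simp [eval₂_pow]
    linear_combination hwz
  set E := ev W ι z w hzw with hE
  have hEc : ∀ c, E (algebraMap K W.CoordinateRing c) = ι c := ev_const ι z w hzw
  have hE0 : ∀ f, Lc f ≠ 0 → E f ≠ 0 := ev_ne_zero ι z w hzw ht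
  set p := algebraMap K₀ K ϖ with hp
  set q := ι p with hqdef
  have hq : q ≠ 0 := by
    rw [hqdef, _root_.map_ne_zero, hp, _root_.map_ne_zero]
    exact hϖ0
  have hEF : ∀ f, E (Fr φ' hφ f) = Φ (E f) := ev_Fr hφ ι z w hzw Φ (fun c => hΦ c) hz hw
  have hΦq : Φ q = q := by rw [hqdef, hΦ, hp, hφe]
  have hEX : ∀ x, E (XClass W x) ≠ 0 := fun x => hE0 _ (by rw [Lc_XClass]; exact one_ne_zero)
  -- the level
  set n := Q ^ 2 + 1 with hn
  have hN : Q ^ 2 + 1 < 2 ^ n := Nat.lt_two_pow_self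
  have hrel := rel_exists (E := E) (q := q) h5 h6 _ hW n (fun x y hxy f hf =>
    hK n W hW hzw x y hxy f hf)
  have huniq : ∀ {P : W.Point} {j j' : ℤ}, Rel E q n P j → Rel E q n P j' → (2 ^ n : ℤ) ∣ j - j' :=
    fun h h' => rel_unique h5 hEc hE0 hq V hsq hU h h'
  -- the automorphism
  set g : W.Point →+ W.Point :=
    WeierstrassCurve.Affine.Point.map (W' := crv e) (φ : K →ₐ[K₀] K) with hg
  have hgi : ∀ P : W.Point, idl (g P) = (idl P).map (Fr φ' hφ) := by
    intro P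
    cases P with
    | zero =>
      have : g (WeierstrassCurve.Affine.Point.zero : W.Point) = WeierstrassCurve.Affine.Point.zero :=
        map_zero g
      rw [this]
      change (⊤ : Ideal W.CoordinateRing) = (⊤ : Ideal W.CoordinateRing).map _
      rw [Ideal.map_top]
    | some x y hxy =>
      rw [hg, WeierstrassCurve.Affine.Point.map_some]
      change XYIdeal W _ _ = (XYIdeal W x (C y)).map _
      rw [Fr_XYIdeal]
      rfl
  -- the group
  let A : AddSubgroup W.Point := (nsmulAddMonoidHom (2 ^ n) : W.Point →+ W.Point).ker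
  have hA : ∀ P : W.Point, P ∈ A ↔ 2 ^ n • P = 0 := fun P => by
    simp only [A, AddMonoidHom.mem_ker, nsmulAddMonoidHom_apply]
  have hfin : (A : Set W.Point).Finite := by
    have := h3 K _ W hW n
    refine this.subset fun P hP => ?_
    exact (hA P).1 hP
  haveI : Finite A := hfin
  choose! J hJ using fun (P : A) => hrel P ((hA P).1 P.2)
  haveI : NeZero (2 ^ n) := ⟨by positivity⟩
  let v : A →+ ZMod (2 ^ n) := AddMonoidHom.mk' (fun P => ((J P : ℤ) : ZMod (2 ^ n))) (by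
    intro P P'
    have h := rel_add h5 hEc hE0 hq ha1 ha3 (n := n) (P := P) (P' := P')
      ((hA _).1 (P + P').2) (hJ P) (hJ P')
    have h' := huniq (hJ (P + P')) h
    rw [← Int.cast_add, ZMod.intCast_eq_intCast_iff_dvd_sub]
    rw [← dvd_neg, neg_sub]
    push_cast
    exact h')
  have hv : ∀ P, v P = ((J P : ℤ) : ZMod (2 ^ n)) := fun _ => rfl
  have hgA : ∀ P : A, g P ∈ A := by
    intro P
    rw [hA, ← map_nsmul, (hA _).1 P.2, map_zero]
  let gA : A →+ A := (g.comp A.subtype).codRestrict A hgA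
  have hgAv : ∀ P, v (gA P) = v P := by
    intro P
    have h := rel_map hφ ha1 ha3 hf2 hf4 hf6 Φ hEF hΦq (P := (P : W.Point)) (P' := g P) (hgi P)
      (hJ P)
    have h' := huniq (hJ (gA P)) h
    rw [hv, hv, ZMod.intCast_eq_intCast_iff_dvd_sub]
    rw [← dvd_neg, neg_sub]
    push_cast
    exact h'
  -- a point with odd value
  have hne : ∀ i j : Fin 3, i ≠ j → algebraMap K₀ K (e i) - algebraMap K₀ K (e j) ≠ 0 :=
    fun i j hij => (hGood.2 i j hij).1
  have hns := nonsing (fun i => algebraMap K₀ K (e i)) hne hW i₀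
  have hT2 : 2 • (WeierstrassCurve.Affine.Point.some _ 0 hns : W.Point) = 0 := by
    rw [two_nsmul]
    apply WeierstrassCurve.Affine.Point.add_self_of_Y_eq
    rw [WeierstrassCurve.Affine.negY, ha1, ha3]
    ring
  have hdiv : ∀ m : ℕ, ∃ T : W.Point,
      2 ^ m • T = (WeierstrassCurve.Affine.Point.some _ 0 hns : W.Point) := by
    intro m
    induction m with
    | zero => exact ⟨_, by rw [pow_zero, one_nsmul]⟩
    | succ m ih =>
      obtain ⟨T, hT⟩ := ih
      obtain ⟨T', hT'⟩ := h2 K V h2V hsq _ hGood W hW (m + 1) T (by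
        rw [pow_succ, mul_nsmul, hT, hT2])
      exact ⟨T', by rw [pow_succ', mul_nsmul, hT', hT]⟩
  obtain ⟨T, hT⟩ := hdiv (Q ^ 2)
  have hTA : T ∈ A := by
    rw [hA, hn, pow_succ, mul_nsmul, hT, hT2]
  have hodd : (2 : ℤ) ∣ J ⟨T, hTA⟩ - j₀ := by
    refine rel_odd h5 hEc hE0 hq ha1 ha3 V hsq hU hEX hns hT (β := β₀) ?_ (hJ ⟨T, hTA⟩)
    rw [hE, ev_XClass, hβ₀]
  have hJodd : Odd (J ⟨T, hTA⟩) := by
    obtain ⟨k, hk⟩ := hodd
    obtain ⟨l, hl⟩ := hj
    exact ⟨k + l, by omega⟩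
  have hunit : IsUnit (v ⟨T, hTA⟩) := by
    rw [hv, ZMod.coe_int_isUnit_iff_isCoprime]
    push_cast
    apply IsCoprime.pow_left
    rw [Int.isCoprime_iff_gcd_eq_one]
    obtain ⟨k, hk⟩ := hJodd
    rw [hk]
    have : IsCoprime (2 : ℤ) (2 * k + 1) := ⟨-k, 1, by ring⟩
    exact Int.isCoprime_iff_gcd_eq_one.1 this
  have hsurj : Function.Surjective v := by
    intro x
    obtain ⟨y, hy⟩ := hunit.exists_right_inv
    refine ⟨(y * x).val • ⟨T, hTA⟩, ?_⟩
    rw [map_nsmul, nsmul_eq_mul, ZMod.natCast_val, ZMod.cast_id, mul_comm y x, mul_assoc,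
      mul_comm y, hy, mul_one]
  have hcount := count (2 ^ n) v hsurj gA hgAv
  have hle := h4 K V h2V _ hGood W hW φ Q hQ hφQ n
  set S : Set W.Point := {P : W.Point | 2 ^ n • P = 0 ∧ ∀ (x y : K) (h : W.Nonsingular x y),
          P = WeierstrassCurve.Affine.Point.some x y h → φ x = x ∧ φ y = y} with hS
  have hSf : S.Finite := (h3 K _ W hW n).subset fun P hP => hP.1
  haveI : Finite S := hSf
  have hle2 : Nat.card {a : A // gA a = a} ≤ Nat.card S := by
    refine Nat.card_le_card_of_injective (fun a => ⟨(a.1 : W.Point), (hA _).1 a.1.2, ?_⟩) ?_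
    · intro x y hxy hP
      have h1 : g (a.1 : W.Point) = a.1 := congrArg Subtype.val a.2
      rw [hP, hg, WeierstrassCurve.Affine.Point.map_some] at h1
      rw [WeierstrassCurve.Affine.Point.some.injEq] at h1
      exact h1
    · intro a b hab
      apply Subtype.ext
      apply Subtype.ext
      have h1 := congrArg (fun P : S => (P : W.Point)) hab
      exact h1
  have : Nat.card S = S.ncard := rfl
  omega

end main

end W349.SecC
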